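import Mathlib
import Pool.Agent.H29.Ptak3

open Polynomial

namespace Pool.Agent.Results.MP_a1a577_an.Both

/-- Holomorphic functional calculus, by the Cauchy integral over the circle `|w| = ρ`. -/
noncomputable def fcalc {A : Type*} [NormedRing A] [NormedAlgebra ℂ A] (ρ : ℝ) (f : ℂ → ℂ)
    (T : A) : A :=
  (2 * Real.pi * Complex.I : ℂ)⁻¹ • circleIntegral (fun w => f w • resolvent T w) 0 ρ

/-- `p` has degree `n` and all its roots satisfy `|z| ≤ r`. -/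
def Adm (n : ℕ) (r : ℝ) (p : ℂ[X]) : Prop :=
  p.degree = n ∧ ∀ z, p.IsRoot z → ‖z‖ ≤ r

/-- `T` is a contraction annihilated by `p`. -/
def InA {A : Type*} [NormedRing A] [NormedAlgebra ℂ A] (p : ℂ[X]) (T : A) : Prop :=
  ‖T‖ ≤ 1 ∧ aeval T p = 0

/-- `p` is a worst polynomial: `C(p,f)` is attained at some `T₀ ∈ A(p)` and dominates
`‖f(T)‖` for all `T ∈ A(q)` and all admissible `q`. -/
def Worst (A : Type*) [NormedRing A] [NormedAlgebra ℂ A] (n : ℕ) (r ρ : ℝ) (f : ℂ → ℂ)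
    (p : ℂ[X]) : Prop :=
  Adm n r p ∧ ∃ T₀ : A, InA p T₀ ∧
    ∀ q, Adm n r q → ∀ T : A, InA q T → ‖fcalc ρ f T‖ ≤ ‖fcalc ρ f T₀‖

open Pool.Agent.H29.Ptak in
theorem result (n : ℕ) (hn : 1 ≤ n) (r ρ : ℝ) (hr : 0 < r) (h1 : r < ρ) (h2 : ρ < 1)
    (f : ℂ → ℂ) (hf : DifferentiableOn ℂ f (Metric.ball 0 1)) :
    (∃ a : ℂ, ‖a‖ ≤ r ∧
      Worst (EuclideanSpace ℂ (Fin n) →L[ℂ] EuclideanSpace ℂ (Fin n)) n r ρ f ((X - C a) ^ n)) ∧
    (∃ p : ℂ[X], (∀ z, p.IsRoot z → ‖z‖ = r) ∧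
      Worst (EuclideanSpace ℂ (Fin n) →L[ℂ] EuclideanSpace ℂ (Fin n)) n r ρ f p) := by
  have hroot : ∀ (a : Fin n → ℂ) z, (PP a).IsRoot z → ∃ i, z = a i := by
    intro a z hz
    rw [IsRoot, PP_eval, Finset.prod_eq_zero_iff] at hz
    obtain ⟨i, -, hi⟩ := hz
    exact ⟨i, sub_eq_zero.1 hi⟩
  have gen : ∀ (S : Set (Fin n → ℂ)), IsClosed S → (∀ a ∈ S, ∀ i, ‖a i‖ ≤ r) → S.Nonempty →
      (∀ Φ : ℝ → ℂ, Continuous Φ → (∀ c ∈ S,
        (∫ θ in (0:ℝ)..2 * Real.pi, Φ θ / ∏ i, Aa (c i) (circleMap 0 ρ θ)).re ≤ 0) →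
        ∀ a : Fin n → ℂ, (∀ i, ‖a i‖ ≤ r) →
        (∫ θ in (0:ℝ)..2 * Real.pi, Φ θ / ∏ i, Aa (a i) (circleMap 0 ρ θ)).re ≤ 0) →
      ∃ a ∈ S, Worst (EuclideanSpace ℂ (Fin n) →L[ℂ] EuclideanSpace ℂ (Fin n)) n r ρ f (PP a) := by
    intro S hS hSr hne hcore
    obtain ⟨a, ha, T₀, k1, k2, k3⟩ := exmax hr h1 h2 hf S hS hSr hne hcore
    refine ⟨a, ha, ⟨?_, fun z hz => ?_⟩, T₀, ⟨k1, k2⟩, fun q hq T hT => ?_⟩
    · have hm : (PP a).Monic := monic_prod_of_monic _ _ fun i _ => monic_X_sub_C _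
      rw [degree_eq_natDegree hm.ne_zero, PP_deg]
    · obtain ⟨i, rfl⟩ := hroot a z hz
      exact hSr a ha i
    · have hq0 : q ≠ 0 := by
        rintro rfl
        simpa using hq.1
      obtain ⟨b, hb, hb2⟩ := roots_fin n q.roots (by
        rw [IsAlgClosed.card_roots_eq_natDegree, natDegree_eq_of_degree_eq_some hq.1])
      have e := (IsAlgClosed.splits q).eq_prod_roots
      rw [hb2] at e
      refine k3 b (fun i => hq.2 _ (isRoot_of_mem_roots (hb i))) T hT.1 ?_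
      have h0 := hT.2
      rw [e, map_mul, aeval_C, ← Algebra.smul_def] at h0
      exact (smul_eq_zero.1 h0).resolve_left (leadingCoeff_ne_zero.2 hq0)
  constructor
  · obtain ⟨m, rfl⟩ : ∃ m, n = m + 1 := ⟨n - 1, by omega⟩
    have hc : IsClosed {a : Fin (m + 1) → ℂ | ‖a 0‖ ≤ r ∧ ∀ i, a i = a 0} := by
      rw [Set.setOf_and, Set.setOf_forall]
      exact (isClosed_le (by fun_prop) continuous_const).inter
        (isClosed_iInter fun i => isClosed_eq (by fun_prop) (by fun_prop))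
    obtain ⟨a, ha, hW⟩ := gen _ hc
      (fun a ha i => by rw [ha.2 i]; exact ha.1) ⟨0, by simp [hr.le]⟩ (by
        intro Φ hΦ h a ha
        have := core1 hr h1 h2 Φ hΦ m 0 (fun c hc => by
          have := h (fun _ => c) ⟨hc, fun _ => rfl⟩
          simpa [add_comm] using this) (a 0) (ha 0) (fun i => a i.succ) fun i => ha _
        simpa [Fin.prod_univ_succ] using this)
    refine ⟨a 0, ha.1, ?_⟩
    have : PP a = (X - C (a 0)) ^ (m + 1) := by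
      rw [PP, Finset.prod_congr rfl fun i _ => by rw [ha.2 i]]; simp
    rwa [this] at hW
  · have hc : IsClosed {a : Fin n → ℂ | ∀ i, ‖a i‖ = r} := by
      rw [Set.setOf_forall]
      exact isClosed_iInter fun i => isClosed_eq (by fun_prop) continuous_const
    obtain ⟨a, ha, hW⟩ := gen _ hc (fun a ha i => (ha i).le)
      ⟨fun _ => r, fun i => by simp [hr.le]⟩ (core2 hr h1 h2 n)
    refine ⟨PP a, fun z hz => ?_, hW⟩
    obtain ⟨i, rfl⟩ := hroot a z hz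
    exact ha i

end Pool.Agent.Results.MP_a1a577_an.Both
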